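import Pool.Agent.J4H46.HD.Main

/-!
# Hartshorne's conjecture in codimension two for almost all degrees

Let `X ⊂ ℙ^N`, `N ≥ 7`, be a smooth subvariety of codimension two and degree `d` which is not a
complete intersection. It is subcanonical (Barth-Larsen), `ω_X = O_X(k)`; there is a vector bundle `E`
of rank two on `ℙ^N` with the Chern classes `c₁ = k + N + 1`, `c₂ = d` and a section `s` with the
scheme of zeros `X`, and `E|X = N_X` (Serre). We use the following facts (they are the facts (1), (2)
and (3) of `MP_014caa_ag.QuarticDegree` of the starting files; its fact (4) is not used).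

(1) The Riemann-Roch conditions for `T² - c₁ T + d`.

(2) `N_X(-1)` is globally generated, with the Chern classes `(c₁ - 2) h`, `(d - c₁ + 1) h²`. Let `M` be
the tautological class on `P = P(N_X(-1))` (line bundle quotients). It is nef, and the intersection
number of `M^(j+1)` and `h^(N-2-j)` on `P` is `d h_j`, where `h_0 = 1`, `h_1 = c₁ - 2`,
`h_(j+2) = (c₁ - 2) h_(j+1) - (d - c₁ + 1) h_j`. So `h_j ≥ 0` for `j ≤ N - 2`.

(3) Let `4 d ≤ c₁²`. Then `E` is not stable (Barth, Bogomolov). Let `a` be the largest integer such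
that `F = E(-a)` has a section `t ≠ 0`, and `b = c₁ - a ≤ a`. The scheme of zeros `Z` of `t` has
codimension two; it is not empty, since `E` does not split; and `deg Z = c₂(F) = d - a b > 0`. The
form `g = ⟨t, s⟩` of degree `b` vanishes on `X`, and no form of smaller degree does; so `b > 0`. We
have `t|X ≠ 0`: otherwise `g` is in the square of the ideal of `X`, and the partial derivatives of `g`
vanish on `X`. So `t` defines an effective divisor of the class `M - (a - 1) h` on `P`; its
intersection number with `M^j`, `h^(N-2-j)` is not negative: `h_j ≥ (a - 1) h_(j-1)` for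
`1 ≤ j ≤ N - 2`.

We show, for every `ε > 0`: **all but at most `C Y / (log Y)^(1+ε)` of the integers `d ≤ Y` have the
following property: for every `N ≥ (log d)^(2+ε)`, every smooth subvariety of codimension two and
degree `d` of `ℙ^N` is a complete intersection.** So the conjecture in codimension two holds for
almost all degrees `d` in the dimensions `N ≥ (log d)^(2+ε)`. More generally, in the dimensions
`N ≥ N₁` which are larger than this, the number of the exceptional degrees `d ≤ Y` is at most
`C Y log Y / N₁`. (The starting file `MP_014caa_ag.AlmostAllDegrees` has the range `d ≤ N^A` in place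
of `d ≤ exp (N^(1/(2+ε)))`, and only shows that `X` has the Chern classes of a complete intersection.
The subvarieties of degree `d ≤ N^4 / 500` are known to be complete intersections,
`MP_014caa_ag.QuarticDegree`.)

Proof. Let `D = c₁² - 4 d`. For `D < 0` the facts (2) give `(N - 1)² |D| ≤ 49 d`. Let `D ≥ 0`, and let
`x ≥ y` be the roots of `T² - (c₁ - 2) T + (d - c₁ + 1)`. By (3), `(a - 1 - x) h_j ≤ y^(j+1)`, where
`h_j ≥ x^j` and `(a - 1 - x) (a - 1 - y) = deg Z ≥ 1`; so `(x / y)^(N-3) ≤ d²`, and
`√D = x - y` is at most `4 √d log d / (N - 3)`. So in both cases `D` is very small compared with `d`. If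
`D = e²` is a square, then `d = b (b + e)` has two factors which are nearly equal, and such `d` are
rare. By (1), `D` is a square modulo all odd primes `p < N`. If `D` is not a square, we write
`D = u m f²` with `u ∈ {1, -1, 2, -2}` and `m` odd and squarefree; then almost all the primes
`p ≡ 1 (mod 8)` between `(N - 1) / 2` and `N - 1` have the Jacobi symbol `(p / m) = 1`: all but the
prime divisors of `D`, of which there are at most `2 log Y`. By Heath-Brown's large sieve for real
characters (of the starting files), applied to the products of `k` such primes, there are so few of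
these `m` that the sum of `1 / √m` is small: at most `O(Y^(1/2-δ))` of them up to `Y`; here the
condition `N ≥ (log Y)^(2+ε)` is used. (The small `m` are excluded by the theorem of Bombieri and
Vinogradov.) The number of pairs `(c₁, D)` is at most the sum over `m` of
`√(5 Y) · 4 √(Y / m) · 11 log Y / (N - 3)`.
-/

set_option autoImplicit false

open Finset Polynomial

namespace Pool.Agent.Results.MP_9a3fdb_ag.AlmostAllDegreesIntersections

open Pool.Agent.R920.CH

/-- The numbers `h_0 = 1`, `h_1 = c₁ - 2`, `h_(j+2) = (c₁ - 2) h_(j+1) - (c₂ - c₁ + 1) h_j`: the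
coefficients of `1 / (1 - (c₁ - 2) T + (c₂ - c₁ + 1) T²)`. -/
def segre (c₁ c₂ : ℤ) : ℕ → ℤ
  | 0 => 1
  | 1 => c₁ - 2
  | j + 2 => (c₁ - 2) * segre c₁ c₂ (j + 1) - (c₂ - c₁ + 1) * segre c₁ c₂ j

/-- The conditions (1), (2) and (3) on the integers `k` and `d`, for a smooth subvariety `X` of
codimension two and degree `d` of `ℙ^N`, `ω_X = O_X(k)`, which is not a complete intersection. -/
structure Conditions (N : ℕ) (k d : ℤ) : Prop where
  riemannRoch : RiemannRoch N (X ^ 2 - C (k + N + 1) * X + C d)
  positive : ∀ j : ℕ, j + 2 ≤ N → 0 ≤ segre (k + N + 1) d j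
  unstable : 4 * d ≤ (k + N + 1) ^ 2 → ∃ a b : ℤ, a + b = k + N + 1 ∧ 0 < b ∧ b ≤ a ∧
    0 < d - a * b ∧
    ∀ j : ℕ, j + 3 ≤ N → (a - 1) * segre (k + N + 1) d j ≤ segre (k + N + 1) d (j + 1)

lemma segre_eq (c₁ c₂ : ℤ) : ∀ j : ℕ,
    segre c₁ c₂ j = Pool.Agent.N998.CT.seg (c₁ - 2) (c₂ - c₁ + 1) j := by
  intro j
  induction j using Nat.twoStepInduction with
  | zero => rfl
  | one => rfl
  | more n ih1 ih2 => rw [segre, Pool.Agent.N998.CT.seg, ih1, ih2]

lemma cond {N : ℕ} {k d : ℤ} (h : Conditions N k d) :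
    Pool.Agent.J4H46.HD.Cond N (k + N + 1) d := by
  refine ⟨h.riemannRoch, fun j hj => by rw [← segre_eq]; exact h.positive j hj, fun hD => ?_⟩
  obtain ⟨a, b, h1, h2, h3, h4, h5⟩ := h.unstable hD
  exact ⟨a, b, h1, h2, h3, h4, fun j hj => by rw [← segre_eq, ← segre_eq]; exact h5 j hj⟩

open Classical in
/-- **Hartshorne's conjecture in codimension two for almost all degrees.** For every `ε > 0` there is
a `C` such that for all `N` and `Y ≥ 2` there are at most `C Y log Y / max (N, (log Y)^(2+ε))` integers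
`d` between `1` and `Y` for which there are an integer `M ≥ N` with `M ≥ (log d)^(2+ε)` and an integer
`k` such that `M`, `k` and `d` satisfy the conditions for a smooth subvariety of codimension two and
degree `d` of `ℙ^M` which is not a complete intersection. -/
theorem result (ε : ℝ) (hε : 0 < ε) : ∃ C : ℝ, ∀ N Y : ℕ, 2 ≤ Y →
    (((Icc 1 Y).filter fun d : ℕ => ∃ M : ℕ, N ≤ M ∧ Real.log d ^ (2 + ε) ≤ M ∧
      ∃ k : ℤ, Conditions M k d).card : ℝ) ≤
        C * Y * Real.log Y / max (N : ℝ) (Real.log Y ^ (2 + ε)) := by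
  obtain ⟨C₁, hC₁, hdens⟩ := Pool.Agent.J4H46.HD.density ε hε
  obtain ⟨N₀, hN₀⟩ := Pool.Agent.J4H46.HD.main ε hε 0
  refine ⟨C₁ + 16 + 2 * N₀, fun N Y hY => ?_⟩
  have hYr : (2 : ℝ) ≤ Y := by exact_mod_cast hY
  have hY0 : (0 : ℝ) < Y := by linarith
  have hL : (0.69 : ℝ) ≤ Real.log Y := by
    have h1 := Real.log_le_log (by norm_num) hYr
    have h2 := Real.log_two_gt_d9
    linarith
  have hL0 : 0 < Real.log (Y : ℝ) := by linarith
  have hN₀r : (0 : ℝ) ≤ N₀ := Nat.cast_nonneg _
  set S : Finset ℕ := (Icc 1 Y).filter fun d : ℕ => ∃ M : ℕ, N ≤ M ∧ Real.log d ^ (2 + ε) ≤ M ∧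
      ∃ k : ℤ, Conditions M k d with hS
  have hmem : ∀ d ∈ S, 1 ≤ d ∧ d ≤ Y ∧ ∃ M : ℕ, N ≤ M ∧ Real.log d ^ (2 + ε) ≤ M ∧
      ∃ k : ℤ, Conditions M k d := by
    intro d hd
    rw [hS, mem_filter, mem_Icc] at hd
    exact ⟨hd.1.1, hd.1.2, hd.2⟩
  rcases le_or_gt (N : ℝ) (Real.log Y ^ (2 + ε)) with hN | hN
  · rw [max_eq_right hN]
    have h1 := hdens Y hY S (by
      intro d hd
      obtain ⟨g1, g2, M, _, g3, k, g4⟩ := hmem d hd
      exact ⟨g1, g2, M, g3, _, cond g4⟩)
    refine h1.trans ?_
    have e : Real.log (Y : ℝ) ^ (2 + ε) = Real.log Y * Real.log Y ^ (1 + ε) := by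
      rw [show 2 + ε = 1 + (1 + ε) by ring, Real.rpow_add hL0, Real.rpow_one]
    rw [e, div_le_div_iff₀ (by positivity) (by positivity)]
    have h2 : 0 ≤ (16 + 2 * (N₀ : ℝ)) * (Y * Real.log Y * Real.log Y ^ (1 + ε)) := by positivity
    calc C₁ * Y * (Real.log Y * Real.log Y ^ (1 + ε)) =
        C₁ * (Y * Real.log Y * Real.log Y ^ (1 + ε)) := by ring
      _ ≤ C₁ * (Y * Real.log Y * Real.log Y ^ (1 + ε)) +
          (16 + 2 * (N₀ : ℝ)) * (Y * Real.log Y * Real.log Y ^ (1 + ε)) := by linarith
      _ = _ := by ring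
  · rw [max_eq_left hN.le]
    have hNpos : (0 : ℝ) < N := lt_of_le_of_lt (by positivity) hN
    rcases lt_or_ge N N₀ with hlt | hge
    · have h1 : S.card ≤ Y := by
        have h2 : S ⊆ Icc 1 Y := filter_subset _ _
        have h3 := card_le_card h2
        rwa [Nat.card_Icc, Nat.add_sub_cancel] at h3
      have h2 : (S.card : ℝ) ≤ Y := by exact_mod_cast h1
      have h3 : (N : ℝ) ≤ N₀ := by exact_mod_cast hlt.le
      rw [le_div_iff₀ hNpos]
      have h4 : (1 : ℝ) ≤ 2 * Real.log Y := by linarith
      calc (S.card : ℝ) * N ≤ Y * N₀ := mul_le_mul h2 h3 hNpos.le hY0.le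
        _ = (Y * N₀) * 1 := by ring
        _ ≤ (Y * N₀) * (2 * Real.log Y) := mul_le_mul_of_nonneg_left h4 (by positivity)
        _ = 2 * N₀ * (Y * Real.log Y) := by ring
        _ ≤ 2 * N₀ * (Y * Real.log Y) + (C₁ + 16) * (Y * Real.log Y) := by
            have : 0 ≤ (C₁ + 16) * (Y * Real.log (Y : ℝ)) := by positivity
            linarith
        _ = _ := by ring
    · obtain ⟨-, -, h3⟩ := hN₀ N hge Y hY hN.le
      have h4 := h3 S (by
        intro d hd
        obtain ⟨g1, g2, M, g3, _, k, g4⟩ := hmem d hd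
        exact ⟨g1, g2, _, (cond g4).mono g3⟩)
      refine h4.trans ?_
      rw [div_le_div_iff_of_pos_right hNpos]
      have h5 : 0 ≤ (C₁ + 2 * N₀) * (Y * Real.log (Y : ℝ)) := by positivity
      calc 16 * (Y : ℝ) * Real.log Y ≤ 16 * (Y : ℝ) * Real.log Y +
          (C₁ + 2 * N₀) * (Y * Real.log (Y : ℝ)) := by linarith
        _ = _ := by ring

end Pool.Agent.Results.MP_9a3fdb_ag.AlmostAllDegreesIntersections
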