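import Pool.Agent.J4H46.HD.Near

/-!
# Hartshorne's conjecture in codimension two for degrees without nearly equal factors

Let `X ⊂ ℙ^N`, `N ≥ 7`, be a smooth subvariety of codimension two and degree `d` which is not a
complete intersection. It is subcanonical (Barth-Larsen), `ω_X = O_X(k)`; there is a vector bundle `E`
of rank two on `ℙ^N` with the Chern classes `c₁ = k + N + 1`, `c₂ = d` and a section `s` with the
scheme of zeros `X`, and `E|X = N_X` (Serre). We use the following facts (the facts (1), (2) and (3)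
of `MP_014caa_ag.QuarticDegree` of the starting files; its fact (4) is not used).

(1) The Riemann-Roch conditions for `T² - c₁ T + d`.

(2) `N_X(-1)` is globally generated, with the Chern classes `(c₁ - 2) h`, `(d - c₁ + 1) h²`. Let `M` be
the tautological class on `P = P(N_X(-1))` (line bundle quotients). It is nef, and the intersection
number of `M^(j+1)` and `h^(N-2-j)` on `P` is `d h_j`, where `h_0 = 1`, `h_1 = c₁ - 2`,
`h_(j+2) = (c₁ - 2) h_(j+1) - (d - c₁ + 1) h_j`. So `h_j ≥ 0` for `j ≤ N - 2`.

(3) Let `4 d ≤ c₁²`. Then `E` is not stable (Barth, Bogomolov). Let `a` be the largest integer such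
that `F = E(-a)` has a section `t ≠ 0`, and `b = c₁ - a ≤ a`. The scheme of zeros `Z` of `t` has
codimension two; it is not empty, since `E` does not split; and `deg Z = c₂(F) = d - a b > 0`. The
form `g = ⟨t, s⟩` of degree `b` vanishes on `X`, and no form of smaller degree does; so `b > 0`. We
have `t|X ≠ 0`: otherwise `g` is in the square of the ideal of `X`, and the partial derivatives of `g`
vanish on `X`. So `t` defines an effective divisor of the class `M - (a - 1) h` on `P`; its
intersection number with `M^j`, `h^(N-2-j)` is not negative: `h_j ≥ (a - 1) h_(j-1)` for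
`1 ≤ j ≤ N - 2`.

We show, for all real `A` and `ε > 0` and all sufficiently large `N`: if `d ≤ N^A`, then one of the
following holds.

(a) The degree has two nearly equal factors, and `X` has the Chern classes of a complete intersection
of hypersurfaces of these degrees: `d = b (b + e)` and `k + N + 1 = b + (b + e)` with `b ≥ N - 1`,
`e ≥ 0` and `(b + e - 1)^(N-2) ≤ (e + 1) (b - 1)^(N-2)`; so `e (N - 2) ≤ (b + e) log (e + 1)`.

(b) The squarefree part of the discriminant `(k + N + 1)² - 4 d` has an absolute value larger than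
`N^(4 √e - ε)`, where `4 √e = 6.59...`; and `d > N^(4 √e + 2 - ε)`, where `4 √e + 2 = 8.59...`.

So every smooth subvariety of codimension two of `ℙ^N`, `N` large, of degree `d ≤ N^8.59` is a
complete intersection, if `d` is not the product of two integers `b` and `b + e` which are nearly
equal in the sense of (a). For example, all smooth subvarieties of codimension two and of prime degree
at most `N^8.59` are hypersurfaces in hyperplanes. (The starting files have this for all
`d ≤ N^4 / 500`, `MP_014caa_ag.QuarticDegree`; `MP_014caa_ag.BurgessDegree` has the bound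
`N^(4 √e + 2 - ε)` for stable `E`, and only the bound `N^(2 √e + 1 - ε)` for unstable `E`. The new point
is the use of (3) and Burgess' bound together in the unstable case, where the discriminant is shown
to be as small as in the stable case, and for square discriminants.
`MP_9a3fdb_ag.AlmostAllDegreesIntersections` is about much larger degrees, with an exceptional set
which it does not describe.)

Proof. Let `D = c₁² - 4 d`. For `D < 0` the facts (2) give `(N - 1)² |D| ≤ 49 d`. Let `D ≥ 0`, and let
`x ≥ y` be the roots of `T² - (c₁ - 2) T + (d - c₁ + 1)`. By (3), `(a - 1 - x) h_j ≤ y^(j+1)`, where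
`h_j ≥ x^j` and `(a - 1 - x) (a - 1 - y) = deg Z ≥ 1`; so `(x / y)^(N-3) ≤ d²`, and
`√D = x - y` is at most `4 √d log d / (N - 3)`. So in both cases `|D| N²` is at most `N^(ε/4) d`. If
`D = f s²` with `|f| ≤ N^(4 √e - ε/2)`, then `D` is a square by (1) and the bound of Burgess with the
method of Vinogradov (`Pool.Agent.R852.BC` of the starting files); so `x = b + e - 1` and
`y = b - 1` are integers, and `a - 1 > x`, so that `h_j ≤ y^(j+1)` for `j ≤ N - 3`. Here
`(x - y) h_j = x^(j+1) - y^(j+1)` and `h_j ≥ (j + 1) y^j`; this gives (a). Otherwise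
`|D| > N^(4 √e - ε/2)`, and `d` is larger than `N^(4 √e + 2 - ε)`.
-/

set_option autoImplicit false

open Filter Polynomial

namespace Pool.Agent.Results.MP_9a3fdb_ag.NearlyEqualFactors

open Pool.Agent.R920.CH

/-- The numbers `h_0 = 1`, `h_1 = c₁ - 2`, `h_(j+2) = (c₁ - 2) h_(j+1) - (c₂ - c₁ + 1) h_j`: the
coefficients of `1 / (1 - (c₁ - 2) T + (c₂ - c₁ + 1) T²)`. -/
def segre (c₁ c₂ : ℤ) : ℕ → ℤ
  | 0 => 1
  | 1 => c₁ - 2
  | j + 2 => (c₁ - 2) * segre c₁ c₂ (j + 1) - (c₂ - c₁ + 1) * segre c₁ c₂ j

/-- The conditions (1), (2) and (3) on the integers `k` and `d`, for a smooth subvariety `X` of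
codimension two and degree `d` of `ℙ^N`, `ω_X = O_X(k)`, which is not a complete intersection. -/
structure Conditions (N : ℕ) (k d : ℤ) : Prop where
  pos : 0 < d
  riemannRoch : RiemannRoch N (X ^ 2 - C (k + N + 1) * X + C d)
  positive : ∀ j : ℕ, j + 2 ≤ N → 0 ≤ segre (k + N + 1) d j
  unstable : 4 * d ≤ (k + N + 1) ^ 2 → ∃ a b : ℤ, a + b = k + N + 1 ∧ 0 < b ∧ b ≤ a ∧
    0 < d - a * b ∧
    ∀ j : ℕ, j + 3 ≤ N → (a - 1) * segre (k + N + 1) d j ≤ segre (k + N + 1) d (j + 1)

lemma segre_eq (c₁ c₂ : ℤ) : ∀ j : ℕ,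
    segre c₁ c₂ j = Pool.Agent.N998.CT.seg (c₁ - 2) (c₂ - c₁ + 1) j := by
  intro j
  induction j using Nat.twoStepInduction with
  | zero => rfl
  | one => rfl
  | more n ih1 ih2 => rw [segre, Pool.Agent.N998.CT.seg, ih1, ih2]

/-- **Degrees without nearly equal factors.** For all real `A` and `ε > 0` there is an `N₀` such that
for all `N ≥ N₀` and all `k` and `d ≤ N^A` which satisfy the conditions for a smooth subvariety `X` of
codimension two and degree `d` of `ℙ^N`, `ω_X = O_X(k)`, which is not a complete intersection: either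
`d = b (b + e)` and `k + N + 1 = b + (b + e)` with `e ≥ 0`, `b ≥ N - 1`,
`(b + e - 1)^(N-2) ≤ (e + 1) (b - 1)^(N-2)` and `e (N - 2) ≤ (b + e) log (e + 1)`; or
`d > N^(4 √e + 2 - ε)`, and `|f| > N^(4 √e - ε)` whenever `(k + N + 1)² - 4 d = f s²`. -/
theorem result (A ε : ℝ) (hε : 0 < ε) : ∃ N₀ : ℕ, ∀ N : ℕ, N₀ ≤ N → ∀ k d : ℤ,
    Conditions N k d → (d : ℝ) ≤ (N : ℝ) ^ A →
    (∃ b e : ℤ, 0 ≤ e ∧ (N : ℤ) - 1 ≤ b ∧ k + N + 1 = b + (b + e) ∧ d = b * (b + e) ∧
      (b + e - 1) ^ (N - 2) ≤ (e + 1) * (b - 1) ^ (N - 2) ∧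
      (e : ℝ) * ((N : ℝ) - 2) ≤ (b + e) * Real.log (e + 1)) ∨
    ((N : ℝ) ^ (4 * Real.exp (1 / 2) + 2 - ε) < d ∧
      ∀ f s : ℤ, (k + N + 1) ^ 2 - 4 * d = f * s ^ 2 →
        (N : ℝ) ^ (4 * Real.exp (1 / 2) - ε) < |(f : ℝ)|) := by
  refine eventually_atTop.mp ?_
  filter_upwards [Pool.Agent.J4H46.HD.dichotomy A ε hε, eventually_ge_atTop 3] with N hN hN3 k d hc hdA
  rcases hN (k + N + 1) d hc.riemannRoch (fun j hj => by rw [← segre_eq]; exact hc.positive j hj)
    (fun hD => by
      obtain ⟨a, b, h1, h2, h3, h4, h5⟩ := hc.unstable hD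
      exact ⟨a, b, h1, h2, h3, h4, fun j hj => by rw [← segre_eq, ← segre_eq]; exact h5 j hj⟩)
    hc.pos hdA with h | h
  · left
    obtain ⟨b, e, he, hb, hc₁, hd, hpow⟩ := h
    refine ⟨b, e, he, by linarith, hc₁, hd, hpow, ?_⟩
    have hN3z : (3 : ℤ) ≤ N := by exact_mod_cast hN3
    have h1 := Pool.Agent.J4H46.HD.near_log (N - 2) b e (by linarith) he hpow
    rwa [Nat.cast_sub (by omega), Nat.cast_ofNat] at h1
  · exact Or.inr h

end Pool.Agent.Results.MP_9a3fdb_ag.NearlyEqualFactors
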